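import Pool.Agent.H735TW.Defs

/-!
# Uniform property Gamma for nuclear C*-algebras with strict comparison: all statements
-/

set_option autoImplicit false

namespace Pool.Agent.H735TW

open Filter Topology Pool.Agent.H327R4.Pure

universe u

/-- basic facts on tracial states and the 2-norm -/
def StTB : Prop := ∀ (A : Type u) [CStarAlgebra A] [PartialOrder A] [StarOrderedRing A]
  (T : Tr A), St T →
    (∀ x, 0 ≤ n2 T x) ∧ (∀ x, n2 T x ^ 2 = re T (star x * x)) ∧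
    (∀ x y, n2 T (x + y) ≤ n2 T x + n2 T y) ∧ (∀ x y, n2 T (x - y) ≤ n2 T x + n2 T y) ∧
    (∀ (c : ℂ) (x : A), n2 T (c • x) = ‖c‖ * n2 T x) ∧
    (∀ x, n2 T (star x) = n2 T x) ∧ (∀ x y, n2 T (x * y) ≤ ‖x‖ * n2 T y) ∧
    (∀ x y, n2 T (x * y) ≤ n2 T x * ‖y‖) ∧ (∀ x, n2 T x ≤ ‖x‖) ∧
    (∀ x, ‖T.f x‖ ≤ n2 T x) ∧ (∀ x y, ‖T.f (x * y)‖ ≤ n2 T x * n2 T y) ∧
    (∀ a b : A, a ≤ b → re T a ≤ re T b) ∧
    (∀ a : A, 0 ≤ a → 0 ≤ re T a ∧ (T.f a).im = 0 ∧ ∀ y : A, ‖T.f (a * y)‖ ≤ re T a * ‖y‖) ∧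
    (∀ a b : A, 0 ≤ a → 0 ≤ b → 0 ≤ re T (a * b)) ∧
    (∀ a : A, IsSelfAdjoint a → (T.f a).im = 0) ∧
    (∀ a b : A, 0 ≤ a → a ≤ 1 → 0 ≤ b → re T (a * b) ≤ re T b)

/-- Lipschitz functions and commutators in the 2-norm -/
def StLIP : Prop := ∀ (A : Type u) [CStarAlgebra A] [PartialOrder A] [StarOrderedRing A]
  (T : Tr A), St T → ∀ (f : ℝ → ℝ) (L : ℝ), 0 ≤ L → (∀ s t, |f s - f t| ≤ L * |s - t|) →
    ∀ X Y a : A, IsSelfAdjoint X → IsSelfAdjoint Y →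
      n2 T (cfc f X * a - a * cfc f Y) ≤ L * n2 T (X * a - a * Y)

/-- divisibility -/
def StDIV : Prop := ∀ (A : Type u) [CStarAlgebra A] [PartialOrder A] [StarOrderedRing A],
  SimpleC A → ¬ FiniteDimensional ℂ A → SC A → DIV A

/-- bump functions of length `2/N` centred at `l/N`, `l ≡ j mod 2`, `|l| ≤ N - 9` -/
noncomputable def kap (N : ℕ) (j : Fin 2) (t : ℝ) : ℝ :=
  ∑ l ∈ (Finset.Icc (-(N : ℤ)) (N : ℤ)).filter (fun l => l % 2 = ((j : ℕ) : ℤ) ∧ |l| + 9 ≤ N),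
    max 0 (1 - |(N : ℝ) * t - (l : ℝ)|)

/-- properties of the bump functions -/
def StKAP : Prop := ∀ N : ℕ, 64 ≤ N →
  (∀ (j : Fin 2) (t : ℝ), 0 ≤ kap N j t ∧ kap N j t ≤ 1) ∧
  (∀ t : ℝ, |t| ≤ 1 → 1 - t ^ 2 ≤ kap N 0 t + kap N 1 t + 32 / N) ∧
  (∀ (j : Fin 2) (s t : ℝ), |kap N j s - kap N j t| ≤ N * |s - t|) ∧
  (∀ (j : Fin 2) (t : ℝ), 1 - 8 / (N : ℝ) ≤ |t| → kap N j t = 0)

/-- supports are transitive along the walk -/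
def StHER : Prop := ∀ (A : Type u) [CStarAlgebra A] [PartialOrder A] [StarOrderedRing A]
  (X₀ X₁ X₂ : A), IsSelfAdjoint X₀ → IsSelfAdjoint X₁ → InHer (1 - X₀ * X₀) (X₁ - X₀) →
    InHer (1 - X₁ * X₁) (X₂ - X₁) → InHer (1 - X₀ * X₀) (X₂ - X₀)

/-- one step of the walk -/
def StSTEP : Prop := ∀ (A : Type u) [CStarAlgebra A] [PartialOrder A] [StarOrderedRing A],
  DIV A → ∀ (N : ℕ), 64 ≤ N → ∀ (j : Fin 2) (X : A) (η : ℝ), IsSelfAdjoint X → -1 ≤ X → X ≤ 1 →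
    0 < η → ∃ X' : A, IsSelfAdjoint X' ∧ -1 ≤ X' ∧ X' ≤ 1 ∧ InHer (1 - X * X) (X' - X) ∧
      ∀ T : Tr A, St T →
        re T (X * X) + 32 / (N : ℝ) ^ 2 * re T (cfc (kap N j) X) - η ≤ re T (X' * X') ∧
        n2 T (X' - X) ^ 2 ≤ 64 / (N : ℝ) ^ 2 * re T (cfc (kap N j) X) + η

/-- two steps of the walk -/
def StTWO : Prop := ∀ (A : Type u) [CStarAlgebra A] [PartialOrder A] [StarOrderedRing A],
  DIV A → ∀ (N : ℕ), 64 ≤ N → ∀ (X : A) (η : ℝ), IsSelfAdjoint X → -1 ≤ X → X ≤ 1 →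
    0 < η → ∃ X' : A, IsSelfAdjoint X' ∧ -1 ≤ X' ∧ X' ≤ 1 ∧ InHer (1 - X * X) (X' - X) ∧
      ∀ T : Tr A, St T → re T (1 - X' * X') ≤
        re T (1 - X * X) - (max 0 (re T (1 - X * X) - 32 / N)) ^ 2 / (20 * (N : ℝ) ^ 2) + η

section props

variable (A : Type u) [CStarAlgebra A] [PartialOrder A] [StarOrderedRing A]

/-- uniform spectral cut: there is an almost projection between `e = 1` and `e > 0` -/
def Cut : Prop := ∀ (e : A) (ε : ℝ), 0 ≤ e → e ≤ 1 → 0 < ε →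
  ∃ E : A, 0 ≤ E ∧ E ≤ 1 ∧ InHer (e - e * e) (E - e) ∧ ∀ T : Tr A, St T → re T (E - E * E) ≤ ε

/-- ramp from `0` (`t ≤ a`) to `1` (`t ≥ b`) -/
noncomputable def rp (a b t : ℝ) : ℝ := max 0 (min 1 ((t - a) / (b - a)))

/-- cells for `x = D (1 + y) D` -/
def RefA : Prop := ∀ (D y : A) (δ ε : ℝ), 0 ≤ D → D ≤ 1 → 0 ≤ y → y ≤ 1 → 0 < δ → 0 < ε →
  ∃ (N : ℕ) (D' : Fin N → A) (t : Fin N → ℝ),
    (∀ l, 0 ≤ D' l ∧ D' l ≤ 1 ∧ cfc (rp (1/8) (1/4)) (D * (1 + y) * D) * D' l = D' l ∧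
      ‖(D * (1 + y) * D - ((1 + t l : ℝ) : ℂ) • 1) * D' l‖ ≤ δ ∧ |t l| ≤ 2) ∧
    (∀ l m, l ≠ m → D' l * D' m = 0) ∧
    ∀ T : Tr A, St T →
      re T (cfc (rp (2/5) (1/2)) (D * (1 + y) * D)) - ∑ l, re T (D' l * D' l) ≤ ε

/-- refinement of one cell -/
def Ref : Prop := ∀ (D y : A) (δ ε : ℝ), 0 ≤ D → D ≤ 1 → 0 ≤ y → y ≤ 1 → 0 < δ → 0 < ε →
  ∃ (N : ℕ) (D' B : Fin N → A) (t : Fin N → ℝ),
    (∀ l, 0 ≤ D' l ∧ D' l ≤ 1 ∧ D' l = D * B l ∧ ‖B l‖ ≤ 16 ∧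
      ‖(D * (1 + y) * D - ((1 + t l : ℝ) : ℂ) • 1) * D' l‖ ≤ δ ∧ |t l| ≤ 2) ∧
    (∀ l m, l ≠ m → D' l * D' m = 0) ∧
    ∀ T : Tr A, St T →
      re T (D * D) - ∑ l, re T (D' l * D' l) ≤ 10 ^ 6 * re T (D - D * D) + ε ∧
      ∑ l, re T (D' l * (1 - D) * (1 - D) * D' l) ≤ 10 ^ 6 * re T (D - D * D) ∧
      ∑ l, n2 T (D' l * (y - ((t l : ℝ) : ℂ) • 1) * D' l) ^ 2 ≤ δ + 10 ^ 6 * re T (D - D * D)

/-- cells for finitely many elements -/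
def Cell : Prop := ∀ (m : ℕ) (y : Fin (m + 1) → A) (δ : ℝ), (∀ j, 0 ≤ y j ∧ y j ≤ 1) → 0 < δ →
  ∃ (N : ℕ) (D : Fin N → A) (t : Fin N → Fin (m + 1) → ℝ),
    (∀ i, 0 ≤ D i ∧ D i ≤ 1 ∧ ‖(y 0 - ((t i 0 : ℝ) : ℂ) • 1) * D i‖ ≤ δ ∧
      ∀ j, |t i j| ≤ 2) ∧
    (∀ i i', i ≠ i' → D i * D i' = 0) ∧
    ∀ T : Tr A, St T → 1 - ∑ i, re T (D i * D i) ≤ δ ∧
      ∀ j, ∑ i, n2 T (D i * (y j - ((t i j : ℝ) : ℂ) • 1) * D i) ^ 2 ≤ δ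

/-- `FOI` for positive contractions -/
def FOIp : Prop := ∀ (m : ℕ) (y : Fin (m + 1) → A) (ε : ℝ), (∀ j, 0 ≤ y j ∧ y j ≤ 1) → 0 < ε →
  ∃ v : A, IsSelfAdjoint v ∧ -1 ≤ v ∧ v ≤ 1 ∧ ∀ T : Tr A, St T → re T (1 - v * v) ≤ ε ∧
    n2 T (v * y 0 - y 0 * v) ≤ ε ∧ ∀ j, ‖T.f (v * y j)‖ ≤ ε

/-- symmetries in the commutant of an order zero map -/
def Com : Prop := ∀ (b : ℕ) (n : Fin b → ℕ) (φ : FD n →ₗ[ℂ] A), OZ φ →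
  ∀ (m : ℕ) (x : Fin m → FD n) (Y : Fin m → A) (ε : ℝ), 0 < ε →
    ∃ V : A, IsSelfAdjoint V ∧ -1 ≤ V ∧ V ≤ 1 ∧ ∀ T : Tr A, St T →
      re T (1 - V * V) ≤ 4 * re T (1 - φ 1) + ε ∧
      ∀ j, n2 T (V * φ (x j) - φ (x j) * V) ≤ ε ∧ ‖T.f (V * Y j)‖ ≤ ε

/-- approximately central elements with `τ(Sa) = 0`, `τ(S²a) = τ(a)`, `τ(S⁴) ≤ 12` -/
def CenS : Prop := ∀ (m : ℕ) (a : Fin m → A) (ε : ℝ), 0 < ε →
  ∃ S : A, IsSelfAdjoint S ∧ ∀ T : Tr A, St T → re T (S * S * (S * S)) ≤ 12 ∧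
    ∀ j, n2 T (S * a j - a j * S) ≤ ε ∧ ‖T.f (S * a j)‖ ≤ ε ∧
      (0 ≤ a j → re T (a j) - ε ≤ re T (S * S * a j))

/-- one step of the second walk -/
def W2 : Prop := ∀ (L : ℝ), 1 ≤ L → ∀ (m : ℕ) (a : Fin m → A) (X : A) (ε : ℝ),
  IsSelfAdjoint X → -1 ≤ X → X ≤ 1 → 0 < ε →
  ∃ X' : A, IsSelfAdjoint X' ∧ -1 ≤ X' ∧ X' ≤ 1 ∧ ∀ T : Tr A, St T →
    re T (1 - X' * X') ≤
      re T (1 - X * X) - (re T (1 - X * X)) ^ 4 / (16 * L ^ 2) + 60 / L ^ 4 + ε ∧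
    ∀ j, n2 T (X' * a j - a j * X') ≤ 2 * n2 T (X * a j - a j * X) + ε ∧
      ‖T.f (X' * a j) - T.f (X * a j)‖ ≤ 24 / L ^ 4 * ‖a j‖ + ε

end props

def StCUT : Prop := ∀ (A : Type u) [CStarAlgebra A] [PartialOrder A] [StarOrderedRing A],
  DIV A → Cut A

def StREFA : Prop := ∀ (A : Type u) [CStarAlgebra A] [PartialOrder A] [StarOrderedRing A],
  Cut A → RefA A

/-- coverage -/
def StREFB : Prop := ∀ (A : Type u) [CStarAlgebra A] [PartialOrder A] [StarOrderedRing A]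
  (D y : A) (T : Tr A), 0 ≤ D → D ≤ 1 → 0 ≤ y → y ≤ 1 → St T →
    re T (D * D) - re T (cfc (rp (2/5) (1/2)) (D * (1 + y) * D)) ≤ 10 ^ 5 * re T (D - D * D)

def StREFC : Prop := ∀ (A : Type u) [CStarAlgebra A] [PartialOrder A] [StarOrderedRing A],
  RefA A → Ref A

def StCELL : Prop := ∀ (A : Type u) [CStarAlgebra A] [PartialOrder A] [StarOrderedRing A],
  Ref A → Cell A

def StFOI1 : Prop := ∀ (A : Type u) [CStarAlgebra A] [PartialOrder A] [StarOrderedRing A],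
  DIV A → Cell A → FOIp A

def StFOI2 : Prop := ∀ (A : Type u) [CStarAlgebra A] [PartialOrder A] [StarOrderedRing A],
  FOIp A → FOI A

def StCOM : Prop := ∀ (A : Type u) [CStarAlgebra A] [PartialOrder A] [StarOrderedRing A],
  FOI A → Com A

/-- the variance inequality -/
def StVAR : Prop := ∀ (A : Type u) [CStarAlgebra A] [PartialOrder A] [StarOrderedRing A]
  (b : ℕ) (n : Fin b → ℕ) (ψ : A →ₗ[ℂ] FD n) (K : ℕ) (l : Fin K → ℝ)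
  (φ : Fin K → (FD n →ₗ[ℂ] A)) (a : A) (ε : ℝ), CPC ψ → (∀ k, 0 ≤ l k) → ∑ k, l k = 1 →
    (∀ k, OZ (φ k)) → ‖∑ k, (l k : ℂ) • φ k (ψ a) - a‖ ≤ ε →
    ‖∑ k, (l k : ℂ) • φ k (ψ (star a * a)) - star a * a‖ ≤ ε →
    ∑ k, (l k : ℂ) • (star (φ k (ψ a) - a) * (φ k (ψ a) - a)) ≤
      ((ε * (1 + 2 * ‖a‖) : ℝ) : ℂ) • 1

/-- `ψ(1) ≤ 1`: the weights of the order zero maps -/
def StVAR1 : Prop := ∀ (A : Type u) [CStarAlgebra A] [PartialOrder A] [StarOrderedRing A]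
  (b : ℕ) (n : Fin b → ℕ) (ψ : A →ₗ[ℂ] FD n) (K : ℕ) (l : Fin K → ℝ)
  (φ : Fin K → (FD n →ₗ[ℂ] A)) (ε : ℝ), CPC ψ → (∀ k, 0 ≤ l k) → ∑ k, l k = 1 →
    (∀ k, OZ (φ k)) → ‖∑ k, (l k : ℂ) • φ k (ψ 1) - 1‖ ≤ ε →
    ∑ k, (l k : ℂ) • (1 - φ k 1) ≤ ((ε : ℝ) : ℂ) • (1 : A)

/-- one more summand -/
def StONE : Prop := ∀ (A : Type u) [CStarAlgebra A] [PartialOrder A] [StarOrderedRing A]
  (T : Tr A), St T → ∀ (X V a : A) (μ : ℝ), 0 ≤ μ → IsSelfAdjoint X → IsSelfAdjoint V → -1 ≤ V →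
    V ≤ 1 → IsSelfAdjoint a →
    n2 T ((X + (μ : ℂ) • V) * a - a * (X + (μ : ℂ) • V)) ^ 2 ≤
      n2 T (X * a - a * X) ^ 2 + μ ^ 2 * n2 T (V * a - a * V) ^ 2 +
        2 * μ * ‖T.f (V * ((X * a - a * X) * a - a * (X * a - a * X)))‖ ∧
    |re T ((X + (μ : ℂ) • V) * (X + (μ : ℂ) • V) * a) - re T (X * X * a) - μ ^ 2 * re T (V * V * a)|
      ≤ μ * ‖T.f (V * (X * a + a * X))‖ ∧
    re T ((X + (μ : ℂ) • V) * (X + (μ : ℂ) • V) * ((X + (μ : ℂ) • V) * (X + (μ : ℂ) • V))) ≤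
      re T (X * X * (X * X)) + 4 * μ * ‖T.f (V * (X * X * X))‖ + 6 * μ ^ 2 * re T (X * X) +
        4 * μ ^ 3 * n2 T X + μ ^ 4

/-- sequential choice of the summands -/
def StSEQ : Prop := ∀ (A : Type u) [CStarAlgebra A] [PartialOrder A] [StarOrderedRing A]
  (K : ℕ) (l : Fin K → ℝ), (∀ k, 0 ≤ l k) → ∑ k, l k = 1 →
    ∀ (m : ℕ) (a : Fin m → A), (∀ j, IsSelfAdjoint (a j)) → ∀ (P : Fin K → A → Prop) (η : ℝ),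
    0 < η →
    (∀ (k : Fin K) (M : ℕ) (Y : Fin M → A) (ε : ℝ), 0 < ε → ∃ V : A, IsSelfAdjoint V ∧ -1 ≤ V ∧
      V ≤ 1 ∧ P k V ∧ ∀ T : Tr A, St T → ∀ j, ‖T.f (V * Y j)‖ ≤ ε) →
    ∃ (V : Fin K → A) (S : A), (∀ k, IsSelfAdjoint (V k) ∧ -1 ≤ V k ∧ V k ≤ 1 ∧ P k (V k)) ∧
      IsSelfAdjoint S ∧ ∀ T : Tr A, St T → re T (S * S * (S * S)) ≤ 12 ∧
        ∀ j, n2 T (S * a j - a j * S) ^ 2 ≤ ∑ k, l k * n2 T (V k * a j - a j * V k) ^ 2 + η ∧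
          ‖T.f (S * a j)‖ ≤ η ∧
          |re T (S * S * a j) - ∑ k, l k * re T (V k * V k * a j)| ≤ η

def StCEN : Prop := ∀ (A : Type u) [CStarAlgebra A] [PartialOrder A] [StarOrderedRing A],
  Com A → Decomp A → CenS A

def StTRUNC : Prop := ∀ (A : Type u) [CStarAlgebra A] [PartialOrder A] [StarOrderedRing A],
  CenS A → SLem A

def StW2A : Prop := ∀ (A : Type u) [CStarAlgebra A] [PartialOrder A] [StarOrderedRing A],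
  SLem A → W2 A

def StW2B : Prop := ∀ (A : Type u) [CStarAlgebra A] [PartialOrder A] [StarOrderedRing A],
  W2 A → UGamma A

/-- THE THEOREM -/
def StMAIN : Prop := ∀ (A : Type u) [CStarAlgebra A] [PartialOrder A] [StarOrderedRing A],
  SimpleC A → ¬ FiniteDimensional ℂ A → SC A → Decomp A → UGamma A

theorem main_of (h1 : StDIV.{u}) (h2 : StCUT.{u}) (h3 : StREFA.{u}) (h4 : StREFC.{u})
    (h5 : StCELL.{u}) (h6 : StFOI1.{u}) (h7 : StFOI2.{u}) (h8 : StCOM.{u}) (h9 : StCEN.{u})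
    (h10 : StTRUNC.{u}) (h11 : StW2A.{u}) (h12 : StW2B.{u}) : StMAIN.{u} := by
  intro A _ _ _ hs hf hc hd
  have hD := h1 A hs hf hc
  have hcell := h5 A (h4 A (h3 A (h2 A hD)))
  exact h12 A (h11 A (h10 A (h9 A (h8 A (h7 A (h6 A hD hcell))) hd)))

end Pool.Agent.H735TW
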